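import Mathlib
import Pool.Agent.LibHarmonic.Count
import Pool.Agent.LibHT14.Window

/-!
# Harmonic number thresholds: the exceptional set has at most `N ^ (1/2 + ε)` elements

For an integer `k ≥ 1` call `k` bad if there is `n` with `H_{n-1} < k < H_n` and
`1/2 ≤ |n - exp (k - γ)|`.  We show that the number of bad `k ≤ N` is `O (N ^ c)` for
every `c > 1/2`, that for every `η < 1/9` and all large `k` the interval `[k, k + k ^ η]`
contains at most two bad integers, and that for every `η < 1/2` there is `M` such that for all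
large `k` the interval `[k, k + k ^ η]` contains at most `M` bad integers.

The proof of the first and the third part: if `k + a` is bad then `2 exp (k - γ) exp a` is within
`O (exp (-k))` of an integer `u_a`.  An auxiliary function `∑ A_t(z) x^t exp (t z)`, `A_t ∈ ℤ[z]`,
is constructed with the pigeonhole principle (the smallness is imposed in the `z` direction and in
the `x` direction), so that the integers `∑ u_a^t (D_t^j A_t)(a)`, `D_t = d/dz + t`, are
smaller than `1` in absolute value for many `j`; a zero estimate (Wronskian) bounds the number of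
the `a`.
-/

namespace Pool.Agent.Results.MP_bc9ae7_nt.SparseExceptions

open Pool.Agent.LibHarmonic Pool.Agent.LibHT14

/-- `Bad k`: the integer `k` violates the statement of the question, that is, for some `n`
one has `H_{n-1} < k < H_n` and `1/2 ≤ |n - exp (k - γ)|`. -/
def Bad (k : ℕ) : Prop :=
  ∃ n : ℕ, ((harmonic (n - 1) : ℚ) : ℝ) < (k : ℝ) ∧ (k : ℝ) < ((harmonic n : ℚ) : ℝ) ∧
    1 / 2 ≤ |(n : ℝ) - Real.exp ((k : ℝ) - Real.eulerMascheroniConstant)|

/-- The number of bad integers `1 ≤ k ≤ N`. -/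
noncomputable def badCount (N : ℕ) : ℕ := {k : ℕ | 1 ≤ k ∧ k ≤ N ∧ Bad k}.ncard

theorem result :
    (∀ c : ℝ, 1 / 2 < c → ∃ C : ℝ, ∀ N : ℕ, 1 ≤ N → (badCount N : ℝ) ≤ C * (N : ℝ) ^ c) ∧
    (∀ η : ℝ, η < 1 / 2 → ∃ M K : ℕ, ∀ k : ℕ, K ≤ k → ∀ I : Finset ℕ,
      (∀ a ∈ I, (a : ℝ) ≤ (k : ℝ) ^ η ∧ Bad (k + a)) → I.card ≤ M) ∧
    (∀ η : ℝ, η < 1 / 9 → ∃ K : ℕ, ∀ k a b : ℕ, K ≤ k → 0 < a → a < b →
      (b : ℝ) ≤ (k : ℝ) ^ η → Bad k → Bad (k + a) → Bad (k + b) → False) := by
  classical
  refine ⟨?_, ?_, ?_⟩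
  · intro c hc
    -- an exponent `η` in `(0, 1/2)` with `1 - η ≤ c`
    obtain ⟨η, h0, h1, h2⟩ : ∃ η : ℝ, 0 < η ∧ η < 1 / 2 ∧ 1 - η ≤ c := by
      refine ⟨max (1 / 4) (1 - c), lt_max_of_lt_left (by norm_num), ?_, ?_⟩
      · exact max_lt (by norm_num) (by linarith)
      · have := le_max_right (1 / 4 : ℝ) (1 - c)
        linarith
    obtain ⟨D, K, hK⟩ := window_few h1
    obtain ⟨C, hC⟩ := count_few (P := Exceptional) h0 (by linarith : η < 1) hK
    refine ⟨C, fun N hN => ?_⟩
    have hNR : (1 : ℝ) ≤ N := by exact_mod_cast hN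
    have h3 : badCount N = ((Finset.Icc 1 N).filter Exceptional).card := by
      rw [badCount, ← Set.ncard_coe_finset]
      congr 1
      ext k
      simp only [Set.mem_ofPred_eq, Finset.coe_filter, Finset.mem_Icc, and_assoc]
      exact Iff.rfl
    have h4 := hC N hN
    have hC0 : 0 ≤ C := by
      have h5 := hC 1 le_rfl
      have h6 : (0 : ℝ) ≤ (((Finset.Icc 1 1).filter Exceptional).card : ℝ) := by positivity
      simp only [Nat.cast_one, Real.one_rpow, mul_one] at h5
      linarith
    rw [h3]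
    refine h4.trans (mul_le_mul_of_nonneg_left ?_ hC0)
    exact Real.rpow_le_rpow_of_exponent_le hNR h2
  · intro η h1
    obtain ⟨M, K, hK⟩ := window_few h1
    exact ⟨M, K, fun k hk I hI => (hK k hk I (fun a ha => (hI a ha).1)
      (fun a ha => (hI a ha).2)).le⟩
  · intro η h1
    obtain ⟨K, hK⟩ := window (η := max (1 / 18) η) (lt_max_of_lt_left (by norm_num))
      (max_lt (by norm_num) h1)
    refine ⟨max K 1, fun k a b hk ha hab hb e1 e2 e3 => ?_⟩
    have hk1 : (1 : ℝ) ≤ k := by exact_mod_cast (le_max_right K 1).trans hk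
    refine hK k a b ((le_max_left K 1).trans hk) ha hab (hb.trans ?_) e1 e2 e3
    exact Real.rpow_le_rpow_of_exponent_le hk1 (le_max_right _ _)

end Pool.Agent.Results.MP_bc9ae7_nt.SparseExceptions
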